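import Pool.Agent.N600.G3.Stm

/-!
Project G3 (helper600), part FIB: subset sums of elements with many valuations.
-/

set_option autoImplicit false

namespace Pool.Agent.N405.G3

open Pool.Agent.N600.G3

universe u

theorem t_fib : S_FIB.{u} := by
  classical
  intro F _ Γ₀ _ v R a ha y
  set w : Fin R → Γ₀ := fun r => v (a r) with hw
  have hw0 : ∀ r, w r ≠ 0 := fun r => by simpa [hw] using ha r
  obtain ⟨P, -, hP⟩ := (Set.surjOn_image w (Set.univ : Set (Fin R))).exists_bijOn_subset
  rw [Set.image_univ] at hP
  have hPcard : P.ncard = (Set.range w).ncard := by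
    rw [← hP.image_eq]
    exact hP.injOn.ncard_image.symm
  have hinj : Function.Injective
      (fun (x : {x : Fin R → Bool // ∑ r, (if x r then a r else 0) = y})
        (r : (Pᶜ : Set (Fin R))) => x.1 r.1) := by
    rintro ⟨x, hx⟩ ⟨x', hx'⟩ h
    have hoff : ∀ r, r ∉ P → x r = x' r := fun r hr => congrFun h ⟨r, hr⟩
    apply Subtype.ext
    funext r
    by_contra hne
    set Q : Finset (Fin R) := Finset.univ.filter (fun r => x r ≠ x' r) with hQ
    have hQne : Q.Nonempty := ⟨r, by simpa [hQ] using hne⟩
    obtain ⟨r0, hr0, hmax⟩ := Q.exists_max_image w hQne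
    set c : Fin R → F := fun r => (if x r then a r else 0) - (if x' r then a r else 0) with hc
    have hcv : ∀ r ∈ Q, v (c r) = w r := by
      intro r hr
      have hr' : x r ≠ x' r := by simpa [hQ] using hr
      simp only [hc, hw]
      cases hxr : x r <;> cases hxr' : x' r
      · exact absurd (hxr.trans hxr'.symm) hr'
      · simp
      · simp
      · exact absurd (hxr.trans hxr'.symm) hr'
    have hc0 : ∀ r, r ∉ Q → c r = 0 := by
      intro r hr
      have hr' : x r = x' r := by simpa [hQ] using hr
      simp [hc, hr']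
    have hsum : ∑ r, c r = 0 := by
      simp only [hc, Finset.sum_sub_distrib, hx, hx', sub_self]
    have hsumQ : ∑ r ∈ Q, c r = 0 := by
      rw [← hsum]
      exact Finset.sum_subset (Finset.subset_univ _) (fun r _ hr => hc0 r hr)
    rw [← Finset.add_sum_erase Q c hr0] at hsumQ
    have hQP : ∀ r ∈ Q, r ∈ P := by
      intro r hr
      by_contra hrP
      have hr' : x r ≠ x' r := by simpa [hQ] using hr
      exact hr' (hoff r hrP)
    have hlt : v (∑ r ∈ Q.erase r0, c r) < v (c r0) := by
      rw [hcv r0 hr0]
      apply Valuation.map_sum_lt v (hw0 r0)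
      intro i hi
      rw [hcv i (Finset.mem_of_mem_erase hi)]
      refine lt_of_le_of_ne (hmax i (Finset.mem_of_mem_erase hi)) ?_
      intro heq
      exact Finset.ne_of_mem_erase hi
        (hP.injOn (hQP i (Finset.mem_of_mem_erase hi)) (hQP r0 hr0) heq)
    have hv := Valuation.map_add_eq_of_lt_left v hlt
    rw [hsumQ, map_zero, hcv r0 hr0] at hv
    exact hw0 r0 hv.symm
  have hcard : Nat.card {x : Fin R → Bool // ∑ r, (if x r then a r else 0) = y} ≤
      2 ^ (Pᶜ : Set (Fin R)).ncard := by
    have h1 := Nat.card_le_card_of_injective _ hinj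
    refine h1.trans (le_of_eq ?_)
    rw [Nat.card_fun, Nat.card_coe_set_eq]
    simp

  have hPc : P.ncard + (Pᶜ : Set (Fin R)).ncard = R := by
    have := Set.ncard_add_ncard_compl P
    simpa using this
  calc 2 ^ (Set.range fun r => v (a r)).ncard *
        Nat.card {x : Fin R → Bool // ∑ r, (if x r then a r else 0) = y}
      ≤ 2 ^ P.ncard * 2 ^ (Pᶜ : Set (Fin R)).ncard := by
        rw [hPcard]
        exact Nat.mul_le_mul_left _ hcard
    _ = 2 ^ R := by rw [← pow_add, hPc]

end Pool.Agent.N405.G3

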